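import Pool.Agent.H78.Blow.MainStar
import Pool.Agent.H78.Blow.SepStarCases
import Pool.Agent.H78.Blow.PinCases

set_option autoImplicit false

/-!
# `ex(n, H, K_k)` is attained by blow-ups of a fixed graph if `H` folds (all `k ≥ 3`)

In particular this holds for every bipartite `H` if `k = 3`, and for all `k ≥ 3` for every
`(k-1)`-colourable graph `H` which has a bridge (e.g. a vertex of degree one) or a bipartite block,
or a proper `(k-1)`-colouring in which the neighbourhood of some non-isolated vertex is
monochromatic, and for all joins of a clique `K_(k-3)` with a bipartite graph without isolated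
vertices.

Proof idea. Let `G` be extremal, `h = |V(H)|`.

1. Cloning: all neighbourhoods have the same usage up to `O(n^(h-1))`; comparing `G` with two
   graphs obtained by simultaneous cloning of `r` vertices gives a second order inequality
   `∑_{P×P} B + ∑_{P'×P'} B - 2 ∑_{P×P'} B ≤ C n^(h-3)`, where `B(x,y)` counts the copies through
   `x` and `y`.
2. The clique removal lemma (from Szemerédi regularity) shows that a set `S` with few
   `(k-1)`-cliques has usage at most that of a neighbourhood, up to `o(n^h)`. Adding common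
   neighbourhoods of `(k-2)`-cliques to `S` one sees that every set with almost optimal usage is
   rich in `(k-1)`-cliques with `k-2` vertices in `S`, by supermodularity that `N(x) ∪ N(y)`
   contains many `(k-1)`-cliques for every edge `xy`, and finally that there are many
   `(k-1)`-cliques with one vertex in `N(x)` and `k-2` vertices in `N(y)`.
3. By step 2, `B(x,x) ≥ c n^(h-2)`, hence by step 1 `B(x,y) ≥ c n^(h-2)` for all `x`, `y`. So an edge
   `xy` which is used by few copies of `H` is covered by many copies in which `x`, `y` are the images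
   of a fixed nonadjacent pair `u`, `v`; then `H + uv` is `K_k`-free, and if `H` folds onto `H + uv`
   one gets many copies using `xy`. If `H` has a separable edge then step 2 alone gives this. So
   every edge of `G` is used by at least `c n^(h-2)` copies of `H`.
4. A random sign argument with the inequality of step 1 bounds the VC dimension of the system of
   neighbourhoods; by Sauer–Shelah all vertices fall in boundedly many clusters of near twins, and
   the inequality of step 1 for two pairs of near twins shows that there are boundedly many classes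
   of twins.
-/

namespace Pool.Agent.Results.MP_c9b280_co.Folds

/-- `G` attains `ex(n, H, K_k)`: it is `K_k`-free, and no `K_k`-free graph on the same vertex set
has more copies of `H`. -/
def IsExtremal (k : ℕ) {W : Type} [Fintype W] (H : SimpleGraph W) {n : ℕ}
    (G : SimpleGraph (Fin n)) : Prop :=
  G.CliqueFree k ∧ ∀ G' : SimpleGraph (Fin n), G'.CliqueFree k → G'.copyCount H ≤ G.copyCount H

/-- There is a fixed finite graph `G₀` such that for all sufficiently large `n` some blow-up of
`G₀` with `n` vertices (`φ` tells which part a vertex lies in) attains `ex(n, H, K_k)`. -/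
def AttainedByBlowups (k : ℕ) {W : Type} [Fintype W] (H : SimpleGraph W) : Prop :=
  ∃ (m : ℕ) (G₀ : SimpleGraph (Fin m)) (n₀ : ℕ), ∀ n ≥ n₀, ∃ φ : Fin n → Fin m,
    IsExtremal k H (G₀.comap φ)

/-- `H` has a separable edge `ab` with respect to `r` colours: the vertices of `H` other than `a`
and `b` are split in two parts (`P v = true` and `P v = false`) with no edge between them, and
`H - {a, b}` has a proper colouring `col` with the colours `0, …, r-1` such that among the neighbours
of `a` exactly those in the part `true` have colour `0`, and among the neighbours of `b` exactly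
those in the part `false` have colour `0`. -/
def HasSeparableEdge (r : ℕ) {W : Type} (H : SimpleGraph W) : Prop :=
  ∃ (a b : W) (P : W → Bool) (col : W → Fin r), H.Adj a b ∧
    (∀ v w, H.Adj v w → v ≠ a → v ≠ b → w ≠ a → w ≠ b → P v = P w ∧ col v ≠ col w) ∧
    (∀ v, H.Adj a v → v ≠ b → ((col v : ℕ) = 0 ↔ P v = true)) ∧
    (∀ v, H.Adj b v → v ≠ a → ((col v : ℕ) = 0 ↔ P v = false))

/-- `H` folds onto `H + uv` with an edge `ab` over `uv`: the vertices of `H` other than `a` and `b`
are split in three parts (values `0`, `1`, `2` of `P`) with no edge between different parts; parts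
`0` and `1` are coloured as the parts `true` and `false` in `HasSeparableEdge`, and part `2` is
mapped by `ψ` to `H - {u, v}` in such a way that edges go to edges, neighbours of `a` to neighbours
of `u` and neighbours of `b` to neighbours of `v`. (For instance `P` may be constant `2`; then `ψ`
extended by `a ↦ u`, `b ↦ v` is a homomorphism from `H` to `H + uv` which takes the values `u` and
`v` only at `a` and `b`.) -/
def FoldsOnto (r : ℕ) {W : Type} (H : SimpleGraph W) (u v : W) : Prop :=
  ∃ (a b : W) (P : W → Fin 3) (col : W → Fin r) (ψ : W → W), H.Adj a b ∧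
    (∀ w w', H.Adj w w' → w ≠ a → w ≠ b → w' ≠ a → w' ≠ b → P w = P w' ∧
      (P w ≠ 2 → col w ≠ col w') ∧ (P w = 2 → H.Adj (ψ w) (ψ w'))) ∧
    (∀ w, H.Adj a w → w ≠ b → (P w = 0 → (col w : ℕ) = 0) ∧ (P w = 1 → (col w : ℕ) ≠ 0) ∧
      (P w = 2 → H.Adj u (ψ w))) ∧
    (∀ w, H.Adj b w → w ≠ a → (P w = 0 → (col w : ℕ) ≠ 0) ∧ (P w = 1 → (col w : ℕ) = 0) ∧
      (P w = 2 → H.Adj v (ψ w))) ∧
    (∀ w, w ≠ a → w ≠ b → P w = 2 → ψ w ≠ u ∧ ψ w ≠ v)

/-- The class of graphs of the main theorem: `H` has a separable edge, or `H` is a noncomplete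
`(k-1)`-colourable graph with at least one edge which folds onto `H + uv` for every nonadjacent pair
`u`, `v` of vertices such that `H + uv` is `K_k`-free. -/
def HasFolds (k : ℕ) {W : Type} (H : SimpleGraph W) : Prop :=
  HasSeparableEdge (k - 1) H ∨
    (H.Colorable (k - 1) ∧ (∃ a b, H.Adj a b) ∧ (∃ u v, u ≠ v ∧ ¬ H.Adj u v) ∧
      ∀ u v, u ≠ v → ¬ H.Adj u v → (H ⊔ SimpleGraph.edge u v).CliqueFree k →
        FoldsOnto (k - 1) H u v)

/-- `H` arises from a graph `F` (the subgraph induced on the fixed points of the retraction `π`) by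
gluing a graph (the subgraph induced on the fibre of `π`) at every vertex of `F`, and `F` has a
proper colouring `s` with `r` colours in which the neighbourhood `N_F(a)` of some vertex `a` is
nonempty and monochromatic. -/
def HasFoldableVertex (r : ℕ) {W : Type} (H : SimpleGraph W) : Prop :=
  ∃ (π : W → W) (s : W → Fin r) (a b : W), (∀ v, π (π v) = π v) ∧
    (∀ v w, H.Adj v w → π v = π w ∨ (π v = v ∧ π w = w ∧ s v ≠ s w)) ∧
    H.Adj a b ∧ π a ≠ π b ∧ ∀ v, H.Adj a v → π v ≠ π a → s v = s b

/-- `H` is the join of a clique `d 0, …, d (p-1)` and a bipartite graph `T` (the subgraph induced on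
the other vertices, with 2-colouring `s`) without isolated vertices. -/
def IsCliqueJoinBipartite (p : ℕ) {W : Type} (H : SimpleGraph W) : Prop :=
  ∃ (d : Fin p → W) (s : W → Bool), Function.Injective d ∧
    (∀ i w, w ≠ d i → H.Adj (d i) w) ∧
    (∀ w w', (∀ i, w ≠ d i) → (∀ i, w' ≠ d i) → H.Adj w w' → s w ≠ s w') ∧
    (∀ w, (∀ i, w ≠ d i) → ∃ w', (∀ i, w' ≠ d i) ∧ H.Adj w w')

/-- `u` and `v` are attached to a common `r`-clique: there is an `r`-clique `g` such that `u` is
adjacent to all of its vertices except possibly `g i`, and `v` to all except possibly `g j`,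
`i ≠ j`. -/
def AttachedToClique (r : ℕ) {W : Type} (H : SimpleGraph W) (u v : W) : Prop :=
  ∃ (g : Fin r → W) (i j : Fin r), i ≠ j ∧ (∀ l m, l ≠ m → H.Adj (g l) (g m)) ∧
    (∀ l, l ≠ i → H.Adj u (g l)) ∧ (∀ l, l ≠ j → H.Adj v (g l))

lemma attained_of_sep (k : ℕ) (hk : 3 ≤ k) {W : Type} [Fintype W] (H : SimpleGraph W)
    (h : H78B.SepStar (k - 2) H) : AttainedByBlowups k H := by
  obtain ⟨q, rfl⟩ : ∃ q, k = q + 2 := ⟨k - 2, by omega⟩
  have hq : 1 ≤ q := by omega
  obtain ⟨m, G₀, n₀, hmain⟩ := H78B.main_star q hq H h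
  refine ⟨m, G₀, n₀, fun n hn => ?_⟩
  obtain ⟨φ, h1, h2⟩ := hmain n hn
  exact ⟨φ, h1, fun G' hG' => H67Blow.copyCount_le_of_num H G' (G₀.comap φ) (h2 G' hG')⟩

lemma attained_of_pinFolds (k : ℕ) (hk : 3 ≤ k) {W : Type} [Fintype W] (H : SimpleGraph W)
    (hcol : H.Colorable (k - 1)) (hedge : ∃ a b, H.Adj a b) (hna : ∃ u v, u ≠ v ∧ ¬ H.Adj u v)
    (h : H78B.PinFolds (k - 2) H) : AttainedByBlowups k H := by
  obtain ⟨q, rfl⟩ : ∃ q, k = q + 2 := ⟨k - 2, by omega⟩
  have hq : 1 ≤ q := by omega
  obtain ⟨m, G₀, n₀, hmain⟩ := H78B.main_pinFolds q hq H hcol hedge hna h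
  refine ⟨m, G₀, n₀, fun n hn => ?_⟩
  obtain ⟨φ, h1, h2⟩ := hmain n hn
  exact ⟨φ, h1, fun G' hG' => H67Blow.copyCount_le_of_num H G' (G₀.comap φ) (h2 G' hG')⟩

lemma attained_of_fold (k : ℕ) (hk : 3 ≤ k) {W : Type} [Fintype W] (H : SimpleGraph W)
    (hcol : H.Colorable (k - 1)) (h : HasFoldableVertex (k - 1) H) : AttainedByBlowups k H := by
  apply attained_of_sep k hk H
  obtain ⟨q, rfl⟩ : ∃ q, k = q + 2 := ⟨k - 2, by omega⟩
  exact H78B.sepStar_of_foldVertex q H hcol h

/-- The edgeless case. -/
lemma attained_of_edgeless (k : ℕ) (hk : 3 ≤ k) {W : Type} [Fintype W] (H : SimpleGraph W)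
    (h : ∀ a b, ¬ H.Adj a b) : AttainedByBlowups k H := by
  classical
  refine ⟨1, ⊥, 0, fun n _ => ⟨fun _ => 0, ?_, fun G' _ => ?_⟩⟩
  · have e : (⊥ : SimpleGraph (Fin 1)).comap (fun _ : Fin n => (0 : Fin 1)) = ⊥ := by
      ext a b
      simp
    rw [e]
    exact SimpleGraph.cliqueFree_bot (by omega)
  · apply H67Blow.copyCount_le_of_num
    unfold H67Blow.num
    apply Finset.card_le_card
    intro f hf
    simp only [H67Blow.injs, Finset.mem_filter, Finset.mem_univ, true_and] at hf ⊢
    exact ⟨hf.1, fun a b hab => absurd hab (h a b)⟩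

/-- A bridge gives a foldable vertex. -/
lemma fold_of_bridge {r : ℕ} (hr : 2 ≤ r) {W : Type} (H : SimpleGraph W) (a b : W)
    (hab : H.Adj a b) (hbr : H.IsBridge s(a, b)) : HasFoldableVertex r H := by
  classical
  have hnr : ¬ (H.deleteEdges {s(a, b)}).Reachable a b := SimpleGraph.isBridge_iff.mp hbr
  set K := H.deleteEdges {s(a, b)} with hK
  set π : W → W := fun v => if K.Reachable v b then b else a with hπ
  have hπa : π a = a := by simp only [hπ, if_neg hnr]
  have hπb : π b = b := by simp only [hπ, if_pos (SimpleGraph.Reachable.refl b)]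
  have hne : a ≠ b := hab.ne
  refine ⟨π, fun v => if v = a then ⟨0, by omega⟩ else ⟨1, by omega⟩, a, b, ?_, ?_, hab, ?_, ?_⟩
  · intro v
    by_cases hv : K.Reachable v b
    · have : π v = b := by simp only [hπ, if_pos hv]
      rw [this, hπb]
    · have : π v = a := by simp only [hπ, if_neg hv]
      rw [this, hπa]
  · intro v w hvw
    by_cases hs : s(v, w) = s(a, b)
    · right
      rw [Sym2.eq_iff] at hs
      rcases hs with ⟨rfl, rfl⟩ | ⟨rfl, rfl⟩
      · refine ⟨hπa, hπb, ?_⟩
        simp [hne.symm]
      · refine ⟨hπb, hπa, ?_⟩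
        simp [hne.symm]
    · left
      have hKvw : K.Adj v w := by
        rw [hK, SimpleGraph.deleteEdges_adj]
        exact ⟨hvw, by simpa using hs⟩
      have : K.Reachable v b ↔ K.Reachable w b :=
        ⟨fun h => hKvw.symm.reachable.trans h, fun h => hKvw.reachable.trans h⟩
      simp only [hπ, this]
  · rw [hπa, hπb]; exact hne
  · intro v hav hπv
    rw [hπa] at hπv
    have hva : v ≠ a := hav.ne'
    simp [hva, hne.symm]

/-- **Main theorem.** Let `k ≥ 3` and let `H` be a finite graph.

1. If `H` has folds (this implies `χ(H) ≤ k - 1`) then there is a fixed graph `G₀` such that for all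
   large `n` some blow-up of `G₀` attains `ex(n, H, K_k)`. The other parts are special cases:
2. `k = 3` and `χ(H) ≤ 2`.
3. `χ(H) ≤ k - 1` and `H` is obtained by gluing graphs at the vertices of a graph `F` with a foldable
   vertex (some proper `(k-1)`-colouring of `F` is constant on a nonempty neighbourhood).
4. `χ(H) ≤ k - 1` and `H` has a bridge, e.g. a vertex of degree one.
5. `k ≥ 4` and `H` is noncomplete and the join of `K_(k-3)` and a bipartite graph without isolated
   vertices.
6. `χ(H) ≤ k - 1`, `H` is noncomplete and has an edge, and any two nonadjacent vertices `u`, `v`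
   such that `H + uv` is `K_k`-free are attached to a common `(k-1)`-clique. -/
theorem result :
    (∀ k : ℕ, 3 ≤ k → ∀ (W : Type) [Fintype W] (H : SimpleGraph W),
      HasFolds k H → AttainedByBlowups k H) ∧
    (∀ (W : Type) [Fintype W] (H : SimpleGraph W), H.Colorable 2 → AttainedByBlowups 3 H) ∧
    (∀ k : ℕ, 3 ≤ k → ∀ (W : Type) [Fintype W] (H : SimpleGraph W), H.Colorable (k - 1) →
      HasFoldableVertex (k - 1) H → AttainedByBlowups k H) ∧
    (∀ k : ℕ, 3 ≤ k → ∀ (W : Type) [Fintype W] (H : SimpleGraph W), H.Colorable (k - 1) →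
      (∃ a b, H.Adj a b ∧ H.IsBridge s(a, b)) → AttainedByBlowups k H) ∧
    (∀ k : ℕ, 4 ≤ k → ∀ (W : Type) [Fintype W] (H : SimpleGraph W), H ≠ ⊤ →
      IsCliqueJoinBipartite (k - 3) H → AttainedByBlowups k H) ∧
    (∀ k : ℕ, 3 ≤ k → ∀ (W : Type) [Fintype W] (H : SimpleGraph W), H.Colorable (k - 1) →
      H ≠ ⊥ → H ≠ ⊤ →
      (∀ u v, u ≠ v → ¬ H.Adj u v → (H ⊔ SimpleGraph.edge u v).CliqueFree k →
        AttachedToClique (k - 1) H u v) → AttainedByBlowups k H) := by
  have nontop : ∀ {W : Type} (H : SimpleGraph W), H ≠ ⊤ → ∃ u v, u ≠ v ∧ ¬ H.Adj u v := by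
    intro W H h
    by_contra hcon
    push Not at hcon
    apply h
    ext u v
    simp only [SimpleGraph.top_adj]
    exact ⟨fun h => h.ne, fun h => hcon u v h⟩
  refine ⟨?_, ?_, ?_, ?_, ?_, ?_⟩
  · intro k hk W _ H hfolds
    obtain ⟨q, rfl⟩ : ∃ q, k = q + 2 := ⟨k - 2, by omega⟩
    have e : ∀ c : Fin (q + 1), ((c : ℕ) = 0 ↔ c = 0) := by
      intro c
      rw [Fin.ext_iff]
      exact Iff.rfl
    rcases hfolds with hsep | ⟨hcol, hedge, hna, hfold⟩
    · apply attained_of_sep (q + 2) hk H
      obtain ⟨a, b, P, col, hab, h1, h2, h3⟩ := hsep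
      exact ⟨a, b, P, col, hab, h1, fun v hv hvb => (e _).symm.trans (h2 v hv hvb),
        fun v hv hva => (e _).symm.trans (h3 v hv hva)⟩
    · apply attained_of_pinFolds (q + 2) hk H hcol hedge hna
      intro u v huv hnadj hfree
      obtain ⟨a, b, P, col, ψ, hab, h1, h2, h3, h4⟩ := hfold u v huv hnadj hfree
      refine ⟨a, b, P, col, ψ, hab, h1, fun w hw hwb => ?_, fun w hw hwa => ?_, h4⟩
      · obtain ⟨c0, c1, c2⟩ := h2 w hw hwb
        exact ⟨fun h => (e _).1 (c0 h), fun h h' => c1 h ((e _).2 h'), c2⟩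
      · obtain ⟨c0, c1, c2⟩ := h3 w hw hwa
        exact ⟨fun h h' => c0 h ((e _).2 h'), fun h => (e _).1 (c1 h), c2⟩
  · intro W _ H hcol
    by_cases hedge : ∃ a b, H.Adj a b
    · obtain ⟨a, b, hab⟩ := hedge
      apply attained_of_fold 3 le_rfl H hcol
      obtain ⟨χ⟩ := hcol
      refine ⟨id, χ, a, b, fun _ => rfl, fun v w hvw => Or.inr ⟨rfl, rfl, χ.valid hvw⟩, hab,
        hab.ne, ?_⟩
      intro v hav _
      have h1 := χ.valid hav
      have h2 := χ.valid hab
      show χ v = χ b
      revert h1 h2
      generalize χ v = x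
      generalize χ a = y
      generalize χ b = z
      revert x y z
      decide
    · push Not at hedge
      exact attained_of_edgeless 3 le_rfl H hedge
  · intro k hk W _ H hcol hfold
    exact attained_of_fold k hk H hcol hfold
  · rintro k hk W _ H hcol ⟨a, b, hab, hbr⟩
    exact attained_of_fold k hk H hcol (fold_of_bridge (by omega) H a b hab hbr)
  · intro k hk W _ H htop hjoin
    obtain ⟨p, rfl⟩ : ∃ p, k = p + 3 := ⟨k - 3, by omega⟩
    have hp : 1 ≤ p := by omega
    have hjoin' : H78B.CliqueJoin p H := hjoin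
    have hcol : H.Colorable (p + 2) := H78B.join_colorable hjoin'
    have hedge : ∃ a b, H.Adj a b := by
      obtain ⟨d, s, hd, h1, h2, h3⟩ := hjoin'
      obtain ⟨u, v, huv, _⟩ := nontop H htop
      by_cases hu : u = d ⟨0, hp⟩
      · exact ⟨_, v, h1 ⟨0, hp⟩ v (by rw [← hu]; exact huv.symm)⟩
      · exact ⟨_, u, h1 ⟨0, hp⟩ u hu⟩
    exact attained_of_pinFolds (p + 3) (by omega) H hcol hedge (nontop H htop)
      (H78B.pinFolds_of_linked hcol hedge (H78B.linked_of_join hp hjoin'))
  · intro k hk W _ H hcol hbot htop hatt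
    obtain ⟨q, rfl⟩ : ∃ q, k = q + 2 := ⟨k - 2, by omega⟩
    have hedge : ∃ a b, H.Adj a b := by
      by_contra hcon
      push Not at hcon
      apply hbot
      ext a b
      simp [hcon a b]
    exact attained_of_pinFolds (q + 2) hk H hcol hedge (nontop H htop)
      (H78B.pinFolds_of_linked hcol hedge
        (fun u v huv hnadj hfree => Or.inl (hatt u v huv hnadj hfree)))

end Pool.Agent.Results.MP_c9b280_co.Folds
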