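import Pool.Agent.H16.BlowMain

set_option autoImplicit false

/-!
# Lower bound for the number of parts of extremal blow-ups

For every `k ≥ 3` and every `M` there is a graph `H` with chromatic number `k - 1` and at most
`C (M + 1)³ (log₂ (M + 1) + 1)` vertices such that for all large `n` no blow-up of a graph with at most `M` vertices
attains `ex(n, H, K_k)`.

`H` is the disjoint union of `2M+1` components; the `i`-th component consists of a clique with
`k-1` vertices (hubs) with pendant leaves. The degrees of the vertices of a `(k-1)`-clique of a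
`K_k`-free graph on `n` vertices add up to at most `(k-2) n`, and the numbers of leaves are chosen
such that a `(k-1)`-clique is optimal for the `i`-th component only if the degree of its first
vertex is close to `i n / (2M+2)`. A blow-up of a graph with at most `M` vertices has at most `M`
different degrees, so it loses an exponential factor in at least `M+1` components, while a graph
with one big independent set and `(2M+1)(k-1)` small classes of vertices is almost optimal for all
components at the same time.
-/

namespace Pool.Agent.Results.MP_c9b280_co.ManyParts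

/-- `G` attains `ex(n, H, K_k)`: it is `K_k`-free, and no `K_k`-free graph on the same vertex
set has more copies of `H`. -/
def IsExtremal (k : ℕ) {W : Type} [Fintype W] (H : SimpleGraph W) {n : ℕ}
    (G : SimpleGraph (Fin n)) : Prop :=
  G.CliqueFree k ∧ ∀ G' : SimpleGraph (Fin n), G'.CliqueFree k → G'.copyCount H ≤ G.copyCount H

/-- For every `k ≥ 3` there is `C` such that for every `M` there is a graph `H` with chromatic
number `k - 1` and at most `C (M + 1)³ (log₂ (M + 1) + 1)` vertices with the following property: for all sufficiently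
large `n`, no `n`-vertex blow-up `G₀.comap φ` of a graph `G₀` with at most `M` vertices attains
`ex(n, H, K_k)`. -/
theorem result (k : ℕ) (hk : 3 ≤ k) : ∃ C : ℕ, ∀ M : ℕ,
    ∃ (W : Type) (_ : Fintype W) (H : SimpleGraph W),
      Fintype.card W ≤ C * ((M + 1) ^ 3 * (Nat.log 2 (M + 1) + 1)) ∧ H.chromaticNumber = ((k - 1 : ℕ) : ℕ∞) ∧
      ∃ n₀ : ℕ, ∀ n ≥ n₀, ∀ m ≤ M, ∀ (G₀ : SimpleGraph (Fin m)) (φ : Fin n → Fin m),
        ¬ IsExtremal k H (G₀.comap φ) := by
  obtain ⟨q, rfl⟩ : ∃ q, k = q + 2 := ⟨k - 2, by omega⟩
  have hq : 1 ≤ q := by omega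
  refine ⟨16 * ((q + 1) + 16 * q ^ 3 * (q + 1) * (24 * (q + 1) + 6)), fun M => ?_⟩
  refine ⟨H16Blow.HV (H16Blow.mm M) q (H16Blow.ll M q), inferInstance, H16Blow.HH M q,
    H16Blow.card_HV M q hq, ?_, ?_⟩
  · rw [H16Blow.HG_chromatic _ _ (by simp only [H16Blow.mm]; omega) hq]
    rfl
  · obtain ⟨n₀, hn₀⟩ := H16Blow.main_num M q hq
    refine ⟨n₀, fun n hn m hm G₀ φ hext => ?_⟩
    obtain ⟨Gh, hGh, hlt⟩ := hn₀ n hn
    have h1 := hlt m hm G₀ φ hext.1
    have h2 := H67Blow.num_eq_copyCount (H16Blow.HH M q) (G₀.comap φ)
    have h3 := H67Blow.num_eq_copyCount (H16Blow.HH M q) Gh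
    have h4 := hext.2 Gh hGh
    rw [h2, h3] at h1
    exact absurd (Nat.mul_le_mul_right _ h4) (not_le.mpr h1)

end Pool.Agent.Results.MP_c9b280_co.ManyParts
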