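import Pool.Agent.H78.Dis.Bridge
import Pool.Agent.H78.Dis.TC
import Pool.Agent.H78.Dis.HN
import Pool.Agent.H52.Dis.Flex

set_option autoImplicit false

/-!
# `ex(n, H, K_4)` is not attained by blow-ups of a fixed graph

There is a finite graph `H` with `χ(H) = 3`, not weakly `K_4`-Turán-good, such that for every finite
graph `G₀` and all sufficiently large `n` no `n`-vertex blow-up of `G₀` is a `K_4`-free graph with
the maximum number of copies of `H`.

Idea. `K` is a `K_4`-free graph on a set `X` of 30 vertices with a set `L` of five far vertices: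
they are pairwise nonadjacent and have pairwise no common neighbour, every other pair of nonadjacent
vertices of `K` has an edge in the common neighbourhood, and the union of any two neighbourhoods
contains a triangle. `H` is a blow-up of the tensor product `K × K_3`, with `W * a x + 3` vertices
for each vertex `(x, l)`, so it is 3-colourable. The weights `a x` are hierarchical.

1. A counting argument with representatives, weighted AM-GM inequalities and the hierarchy of the
   weights show: if `W` and `n` are large then in an extremal graph `G` for every vertex `v` there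
   is an almost complete blow-up of `K` which covers almost all vertices, with parts of relative
   sizes about `a x / ∑ a`, and such that `v` is adjacent to all parts `S y` with `y ∼ x` for some
   `x`. Comparing these structures for different `v` one gets a partition `V = ⋃ V_x`; the vertices
   of `V_x` are adjacent to all vertices of `V_y` if `x ∼ y`, and all other edges of `G` are between
   different parts `V_x`, `V_y` with `x, y ∈ L`.
2. Let `D` be the union of the five parts `V_x`, `x ∈ L`. Every copy of `H` which uses an edge in
   `D` is contained in `D`, since `H` is connected via triangles and `L` is far. So the number of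
   copies is that in the blow-up of `K` plus that in `G[D]`; and `G[D]` may be replaced by every
   `K_4`-free graph on `D` in which the five parts are independent. An extremal graph on `|D|`
   vertices can be coloured with five colours and prescribed sizes of the colour classes (near the
   right values), so `G[D]` is extremal as well.
3. So if `G` is a blow-up of `G₀`, then the extremal graph `G[D]` is a blow-up of a smaller graph,
   and `|D| ≥ c n`. This is a contradiction after at most `|V(G₀)|` steps if `n` is large.
-/

namespace Pool.Agent.Results.MP_c9b280_co.NoFixedBlowup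

/-- `G` attains `ex(n, H, K_k)`: it is `K_k`-free, and no `K_k`-free graph on the same vertex set
has more copies of `H`. -/
def IsExtremal (k : ℕ) {W : Type} [Fintype W] (H : SimpleGraph W) {n : ℕ}
    (G : SimpleGraph (Fin n)) : Prop :=
  G.CliqueFree k ∧ ∀ G' : SimpleGraph (Fin n), G'.CliqueFree k → G'.copyCount H ≤ G.copyCount H

/-- For all sufficiently large `n` some complete `(k-1)`-partite graph on `n` vertices (`φ` tells
which part a vertex lies in) attains `ex(n, H, K_k)`. -/
def WeaklyTuranGood (k : ℕ) {W : Type} [Fintype W] (H : SimpleGraph W) : Prop :=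
  ∃ n₀ : ℕ, ∀ n ≥ n₀, ∃ φ : Fin n → Fin (k - 1),
    IsExtremal k H ((⊤ : SimpleGraph (Fin (k - 1))).comap φ)

lemma ext_of_isExtremal {W : Type} [Fintype W] (H : SimpleGraph W) {n : ℕ}
    (G : SimpleGraph (Fin n)) (h : IsExtremal 4 H G) : H78D.Ext H G := by
  classical
  refine ⟨h.1, fun G' hG' => ?_⟩
  rw [H67Blow.num_eq_copyCount, H67Blow.num_eq_copyCount]
  exact Nat.mul_le_mul_right _ (h.2 G' hG')

/-- There is a finite graph `H` with chromatic number `3`, not weakly `K_4`-Turán-good, such that
for every finite graph `G₀` there is an `n₀` such that for all `n ≥ n₀` no blow-up of `G₀` with `n`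
vertices (`φ` tells which part a vertex lies in) attains `ex(n, H, K_4)`. -/
theorem result : ∃ (m : ℕ) (H : SimpleGraph (Fin m)), H.chromaticNumber = 3 ∧
    ¬ WeaklyTuranGood 4 H ∧ ∀ (p : ℕ) (G₀ : SimpleGraph (Fin p)), ∃ n₀ : ℕ, ∀ n ≥ n₀,
      ∀ φ : Fin n → Fin p, ¬ IsExtremal 4 H (G₀.comap φ) := by
  obtain ⟨m, H, h3, h2, hmain⟩ := H78D.exists_graph H78D.Inst.K H78D.Inst.L H78D.Inst.lev
    H78D.Inst.a (H78D.Inst.good_of H78D.Inst.tc H78D.Inst.hn) Pool.Agent.H52.Dis.flex
  have hex : ∀ (p : ℕ) (G₀ : SimpleGraph (Fin p)), ∃ n₀ : ℕ, ∀ n ≥ n₀,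
      ∀ φ : Fin n → Fin p, ¬ IsExtremal 4 H (G₀.comap φ) := by
    intro p G₀
    obtain ⟨n₀, hn₀⟩ := hmain p G₀
    exact ⟨n₀, fun n hn φ h => hn₀ n hn φ (ext_of_isExtremal H _ h)⟩
  refine ⟨m, H, ?_, ?_, hex⟩
  · have := (SimpleGraph.chromaticNumber_eq_iff_colorable_not_colorable (G := H) (n := 2)).mpr
      ⟨h3, h2⟩
    rw [this]
    rfl
  · rintro ⟨n₁, hn₁⟩
    obtain ⟨n₀, hn₀⟩ := hex (4 - 1) ⊤
    obtain ⟨φ, hφ⟩ := hn₁ (max n₀ n₁) (le_max_right _ _)
    exact hn₀ _ (le_max_left _ _) φ hφ

end Pool.Agent.Results.MP_c9b280_co.NoFixedBlowup
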